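import Pool.Agent.Helper43.GD.St

/-!
Project GD (MP_b3ce06_al), module PF: perfectness.
-/

set_option autoImplicit false

namespace Pool.Agent.Helper30.GD

open Pool.Agent.Helper43.GD

theorem hPF : StPF := by
  intro L H _ _ M x s hR h1 hx hgp
  have ht := s.tor_of_weyl h1 hx
  have hg : (x : L) ^ 2 + (x : L) = 1 := hR.gold
  have hxi : (x : L) * ((x⁻¹ : Lˣ) : L) = 1 := x.mul_inv
  have hcomm : ∀ g k : H, g * k * g⁻¹ * k⁻¹ ∈ commutator H := by
    intro g k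
    rw [commutator_def]
    exact Subgroup.commutator_mem_commutator (Subgroup.mem_top g) (Subgroup.mem_top k)
  have hE : ∀ a, s.E a ∈ commutator H := by
    intro a
    have h2 := hcomm (s.om x * (s.om 1)⁻¹) (s.E (-(((x⁻¹ : Lˣ) : L) * a)))
    rw [ht.1, ← s.E_neg, ← s.Eadd] at h2
    have e : ((x * x * 1⁻¹ * 1⁻¹ : Lˣ) : L) * (-(((x⁻¹ : Lˣ) : L) * a)) +
        -(-(((x⁻¹ : Lˣ) : L) * a)) = a := by
      rw [inv_one, mul_one, mul_one, Units.val_mul]
      linear_combination (-((x⁻¹ : Lˣ) : L) * a) * hg + a * hxi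
    rw [e] at h2
    exact h2
  have hF : ∀ b, s.F b ∈ commutator H := by
    intro b
    have h2 := hcomm (s.om x * (s.om 1)⁻¹) (s.F ((x : L) * b))
    rw [ht.2, ← s.F_neg, ← s.Fadd] at h2
    have e : (((x * x * 1⁻¹ * 1⁻¹ : Lˣ)⁻¹ : Lˣ) : L) * ((x : L) * b) + -((x : L) * b) = b := by
      rw [inv_one, mul_one, mul_one, mul_inv, Units.val_mul]
      linear_combination (-((x⁻¹ : Lˣ) : L) * b) * hg +
        (((x⁻¹ : Lˣ) : L) * b + b + (x : L) * b) * hxi
    rw [e] at h2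
    exact h2
  rw [eq_top_iff, ← hgp]
  unfold Sys.gp
  rw [Subgroup.closure_le]
  rintro g (⟨a, rfl⟩ | ⟨b, rfl⟩)
  · exact hE a
  · exact hF b

end Pool.Agent.Helper30.GD
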